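import Mathlib

/-!
# MP_623bad_gt, Q2: triangles with prescribed angles

There is a homeomorphism `T` of the closed unit disk such that, for all angles `α, β, γ > 0` with
`α + β + γ = π`, no sufficiently small triangle with these angles is congruent to its image
under `T`.
-/

namespace Pool.Agent.Results.MP_623bad_gt.PrescribedAngles

open Complex Filter Topology Metric

/-- The closed unit disk `D` of the plane. -/
abbrev Disk : Type := closedBall (0 : ℂ) 1

/-- The triple `(p₁, p₂, p₃)` is a non-degenerate triangle whose interior angles at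
`p₁, p₂, p₃` are `α, β, γ`. -/
def HasAngles (α β γ : ℝ) (p₁ p₂ p₃ : ℂ) : Prop :=
  ¬ Collinear ℝ {p₁, p₂, p₃} ∧ EuclideanGeometry.angle p₂ p₁ p₃ = α ∧
    EuclideanGeometry.angle p₁ p₂ p₃ = β ∧ EuclideanGeometry.angle p₁ p₃ p₂ = γ

/-- The triangle is congruent to its image under `T`. -/
def CongruentToImage (T : Disk → Disk) (p₁ p₂ p₃ : Disk) : Prop :=
  dist (T p₁) (T p₂) = dist p₁ p₂ ∧ dist (T p₁) (T p₃) = dist p₁ p₃ ∧
    dist (T p₂) (T p₃) = dist p₂ p₃

/-! ### the maps -/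

/-- the twist -/
noncomputable def S (z : ℂ) : ℂ := z * cexp (((‖z‖ ^ 2 : ℝ) : ℂ) * I)

/-- its inverse -/
noncomputable def S' (z : ℂ) : ℂ := z * cexp (-(((‖z‖ ^ 2 : ℝ) : ℂ) * I))

lemma norm_exp' (r : ℝ) : ‖cexp ((r : ℂ) * I)‖ = 1 := norm_exp_ofReal_mul_I r

lemma norm_S (z : ℂ) : ‖S z‖ = ‖z‖ := by
  rw [S, norm_mul, norm_exp', mul_one]

lemma norm_S' (z : ℂ) : ‖S' z‖ = ‖z‖ := by
  rw [S', norm_mul, exp_neg, norm_inv, norm_exp', inv_one, mul_one]

lemma S'_S (z : ℂ) : S' (S z) = z := by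
  rw [S', norm_S, S, mul_assoc, ← Complex.exp_add, add_neg_cancel, Complex.exp_zero, mul_one]

lemma S_S' (z : ℂ) : S (S' z) = z := by
  rw [S, norm_S', S', mul_assoc, ← Complex.exp_add, neg_add_cancel, Complex.exp_zero, mul_one]

lemma continuous_S : Continuous S := by unfold S; fun_prop

lemma continuous_S' : Continuous S' := by unfold S'; fun_prop

/-- the Möbius map -/
noncomputable def M (w : ℂ) : ℂ := (2 * w + 1) / (w + 2)

/-- its inverse -/
noncomputable def M' (w : ℂ) : ℂ := (2 * w - 1) / (2 - w)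

lemma add_two_ne {w : ℂ} (h : ‖w‖ ≤ 1) : w + 2 ≠ 0 := by
  intro h0
  have : w = -2 := by linear_combination h0
  rw [this] at h
  norm_num at h

lemma two_sub_ne {w : ℂ} (h : ‖w‖ ≤ 1) : 2 - w ≠ 0 := by
  intro h0
  have : w = 2 := by linear_combination -h0
  rw [this] at h
  norm_num at h

lemma sq_norm (w : ℂ) : ‖w‖ ^ 2 = w.re ^ 2 + w.im ^ 2 := by
  rw [← normSq_eq_norm_sq, normSq_apply]; ring

lemma norm_M {w : ℂ} (h : ‖w‖ ≤ 1) : ‖M w‖ ≤ 1 := by
  have h1 : 0 < ‖w + 2‖ := norm_pos_iff.2 (add_two_ne h)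
  rw [M, norm_div, div_le_one h1, ← sq_le_sq₀ (norm_nonneg _) (norm_nonneg _), sq_norm, sq_norm]
  have h2 : ‖w‖ ^ 2 ≤ 1 := by nlinarith [norm_nonneg w]
  rw [sq_norm] at h2
  simp
  nlinarith

lemma norm_M' {w : ℂ} (h : ‖w‖ ≤ 1) : ‖M' w‖ ≤ 1 := by
  have h1 : 0 < ‖2 - w‖ := norm_pos_iff.2 (two_sub_ne h)
  rw [M', norm_div, div_le_one h1, ← sq_le_sq₀ (norm_nonneg _) (norm_nonneg _), sq_norm, sq_norm]
  have h2 : ‖w‖ ^ 2 ≤ 1 := by nlinarith [norm_nonneg w]
  rw [sq_norm] at h2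
  simp
  nlinarith

lemma M'_M {w : ℂ} (h : ‖w‖ ≤ 1) : M' (M w) = w := by
  have h1 := add_two_ne h
  have h2 := two_sub_ne (norm_M h)
  rw [M', div_eq_iff h2, M]
  field_simp
  ring

lemma M_M' {w : ℂ} (h : ‖w‖ ≤ 1) : M (M' w) = w := by
  have h1 := two_sub_ne h
  have h2 := add_two_ne (norm_M' h)
  rw [M, div_eq_iff h2, M']
  field_simp
  ring

/-- the map `T` on the plane -/
noncomputable def F (z : ℂ) : ℂ := M (S z)

/-- the homeomorphism `T` -/
noncomputable def T : Disk ≃ₜ Disk where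
  toFun z := ⟨F z, by
    have h : ‖(z : ℂ)‖ ≤ 1 := mem_closedBall_zero_iff.1 z.2
    exact mem_closedBall_zero_iff.2 (norm_M (w := S z) (by rw [norm_S]; exact h))⟩
  invFun z := ⟨S' (M' z), by
    have h : ‖(z : ℂ)‖ ≤ 1 := mem_closedBall_zero_iff.1 z.2
    exact mem_closedBall_zero_iff.2 (by rw [norm_S']; exact norm_M' h)⟩
  left_inv z := by
    have h : ‖(z : ℂ)‖ ≤ 1 := mem_closedBall_zero_iff.1 z.2
    apply Subtype.ext
    simp only [F]
    rw [M'_M (by rw [norm_S]; exact h), S'_S]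
  right_inv z := by
    have h : ‖(z : ℂ)‖ ≤ 1 := mem_closedBall_zero_iff.1 z.2
    apply Subtype.ext
    simp only [F]
    rw [S_S', M_M' h]
  continuous_toFun := by
    refine Continuous.subtype_mk ?_ _
    refine Continuous.div ?_ ?_ fun z => ?_
    · exact (continuous_const.mul (continuous_S.comp continuous_subtype_val)).add continuous_const
    · exact (continuous_S.comp continuous_subtype_val).add continuous_const
    · have h : ‖(z : ℂ)‖ ≤ 1 := mem_closedBall_zero_iff.1 z.2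
      exact add_two_ne (by rw [norm_S]; exact h)
  continuous_invFun := by
    refine Continuous.subtype_mk ?_ _
    refine continuous_S'.comp (Continuous.div ?_ ?_ fun z => ?_)
    · exact (continuous_const.mul continuous_subtype_val).sub continuous_const
    · exact continuous_const.sub continuous_subtype_val
    · have h : ‖(z : ℂ)‖ ≤ 1 := mem_closedBall_zero_iff.1 z.2
      exact two_sub_ne h

/-! ### the derivative -/

lemma deriv_F {p : ℂ} (hp : ‖p‖ ≤ 1) : ∃ L : ℂ →L[ℝ] ℂ, HasStrictFDerivAt F L p ∧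
    ∀ d : ℂ, ‖L d‖ = 3 / ‖S p + 2‖ ^ 2 *
      ‖d + 2 * (p.re * d.re + p.im * d.im : ℝ) * p * I‖ := by
  have h1 : HasStrictFDerivAt (fun z : ℂ => ((‖z‖ ^ 2 : ℝ) : ℂ) * I)
      ((ContinuousLinearMap.toSpanSingleton ℝ I).comp (2 • (innerSL ℝ) p)) p := by
    have h := (ContinuousLinearMap.toSpanSingleton ℝ I).hasStrictFDerivAt.comp p
      (hasStrictFDerivAt_norm_sq p)
    refine h.congr_of_eventuallyEq (Eventually.of_forall fun z => ?_)
    simp
  have h2 := (hasStrictFDerivAt_id (𝕜 := ℝ) p).mul h1.cexp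
  have hw : ‖S p‖ ≤ 1 := by rw [norm_S]; exact hp
  have hne := add_two_ne hw
  have h3 : HasStrictDerivAt M (3 / (S p + 2) ^ 2) (S p) := by
    have ha : HasStrictDerivAt (fun w : ℂ => 2 * w + 1) 2 (S p) := by
      have := ((hasStrictDerivAt_id (S p)).const_mul (2 : ℂ)).add_const (1 : ℂ)
      simpa using this
    have hb : HasStrictDerivAt (fun w : ℂ => w + 2) 1 (S p) :=
      (hasStrictDerivAt_id (S p)).add_const (2 : ℂ)
    have := ha.div hb hne
    refine this.congr_deriv ?_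
    congr 1
    ring
  have h4 := (h3.hasStrictFDerivAt.restrictScalars ℝ).comp p h2
  refine ⟨_, h4, fun d => ?_⟩
  have hin : inner ℝ p d = p.re * d.re + p.im * d.im := by
    rw [Complex.inner]; simp; ring
  have e : ‖(3 / (S p + 2) ^ 2 : ℂ)‖ = 3 / ‖S p + 2‖ ^ 2 := by
    rw [norm_div, norm_pow]; simp
  rw [← e]
  have e2 : ‖d + 2 * (p.re * d.re + p.im * d.im : ℝ) * p * I‖ =
      ‖cexp (((‖p‖ ^ 2 : ℝ) : ℂ) * I) * (d + 2 * (p.re * d.re + p.im * d.im : ℝ) * p * I)‖ := by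
    rw [norm_mul, norm_exp', one_mul]
  rw [e2, ← norm_mul]
  congr 1
  simp [hin]
  ring

/-! ### algebra -/

/-- the derivative is not isometric on the sides of a triangle -/
lemma key {p : ℂ} (hp : ‖p‖ ≤ 1) {u κ : ℂ} (hu : u ≠ 0) (hκ : κ.im ≠ 0)
    (h1 : 3 / ‖S p + 2‖ ^ 2 * ‖u + 2 * (p.re * u.re + p.im * u.im : ℝ) * p * I‖ = ‖u‖)
    (h2 : 3 / ‖S p + 2‖ ^ 2 * ‖κ * u + 2 * (p.re * (κ * u).re + p.im * (κ * u).im : ℝ) * p * I‖ =
      ‖κ * u‖)
    (h3 : 3 / ‖S p + 2‖ ^ 2 * ‖(κ - 1) * u + 2 * (p.re * ((κ - 1) * u).re +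
      p.im * ((κ - 1) * u).im : ℝ) * p * I‖ = ‖(κ - 1) * u‖) : False := by
  set μ : ℝ := 3 / ‖S p + 2‖ ^ 2 with hμ
  have form : ∀ d : ℂ, μ * ‖d + 2 * (p.re * d.re + p.im * d.im : ℝ) * p * I‖ = ‖d‖ →
      μ ^ 2 * ((d.re - 2 * (p.re * d.re + p.im * d.im) * p.im) ^ 2 +
        (d.im + 2 * (p.re * d.re + p.im * d.im) * p.re) ^ 2) - (d.re ^ 2 + d.im ^ 2) = 0 := by
    intro d hd
    have h := congrArg (· ^ 2) hd
    simp only [mul_pow] at h
    rw [sq_norm, sq_norm] at h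
    have e1 : (d + 2 * (p.re * d.re + p.im * d.im : ℝ) * p * I).re =
        d.re - 2 * (p.re * d.re + p.im * d.im) * p.im := by
      simp; ring
    have e2 : (d + 2 * (p.re * d.re + p.im * d.im : ℝ) * p * I).im =
        d.im + 2 * (p.re * d.re + p.im * d.im) * p.re := by
      simp
    rw [e1, e2] at h
    linarith
  have f1 := form _ h1
  have f2 := form _ h2
  have f3 := form _ h3
  set a := p.re
  set b := p.im
  set x := u.re with hx
  set y := u.im with hy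
  set s := a ^ 2 + b ^ 2 with hs
  set A := μ ^ 2 * (1 - 4 * a * b + 4 * s * a ^ 2) - 1 with hA
  set B := μ ^ 2 * (4 * (a ^ 2 - b ^ 2) + 8 * s * a * b) with hB
  set C := μ ^ 2 * (1 + 4 * a * b + 4 * s * b ^ 2) - 1 with hC
  set x2 := (κ * u).re with hx2
  set y2 := (κ * u).im with hy2
  have hx3 : ((κ - 1) * u).re = x2 - x := by rw [sub_mul, one_mul, sub_re]
  have hy3 : ((κ - 1) * u).im = y2 - y := by rw [sub_mul, one_mul, sub_im]
  rw [hx3, hy3] at f3
  have g1 : A * x ^ 2 + B * x * y + C * y ^ 2 = 0 := by rw [← f1, hA, hB, hC, hs]; ring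
  have g2 : A * x2 ^ 2 + B * x2 * y2 + C * y2 ^ 2 = 0 := by rw [← f2, hA, hB, hC, hs]; ring
  have g3 : A * (x2 - x) ^ 2 + B * (x2 - x) * (y2 - y) + C * (y2 - y) ^ 2 = 0 := by
    rw [← f3, hA, hB, hC, hs]; ring
  have hD : x * y2 - x2 * y ≠ 0 := by
    have : x * y2 - x2 * y = κ.im * (x ^ 2 + y ^ 2) := by
      rw [hx2, hy2, mul_re, mul_im]; ring
    rw [this]
    refine mul_ne_zero hκ ?_
    rw [hx, hy, ← sq_norm]
    exact pow_ne_zero 2 (norm_ne_zero_iff.2 hu)
  have hA0 : A = 0 := by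
    have : (x * y2 - x2 * y) ^ 2 * A = 0 := by linear_combination (y2 ^ 2 - y * y2) * g1 +
      (y ^ 2 - y * y2) * g2 + y * y2 * g3
    rcases mul_eq_zero.1 this with h | h
    · exact absurd (pow_eq_zero_iff (two_ne_zero)|>.1 h) hD
    · exact h
  have hC0 : C = 0 := by
    have : (x * y2 - x2 * y) ^ 2 * C = 0 := by linear_combination (x2 ^ 2 - x * x2) * g1 +
      (x ^ 2 - x * x2) * g2 + x * x2 * g3
    rcases mul_eq_zero.1 this with h | h
    · exact absurd (pow_eq_zero_iff (two_ne_zero)|>.1 h) hD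
    · exact h
  have hB0 : B = 0 := by
    rw [hA0, hC0] at g1 g2
    by_contra hB
    have e1 : x * y = 0 := by
      have : B * (x * y) = 0 := by linarith
      exact (mul_eq_zero.1 this).resolve_left hB
    have e2 : x2 * y2 = 0 := by
      have : B * (x2 * y2) = 0 := by linarith
      exact (mul_eq_zero.1 this).resolve_left hB
    have e3 : (x2 - x) * (y2 - y) = 0 := by
      rw [hA0, hC0] at g3
      have : B * ((x2 - x) * (y2 - y)) = 0 := by linarith
      exact (mul_eq_zero.1 this).resolve_left hB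
    have e4 : x2 * y + x * y2 = 0 := by linear_combination e1 + e2 - e3
    have e5 : (x * y2 - x2 * y) ^ 2 = 0 := by
      linear_combination (x2 * y + x * y2) * e4 - 4 * x2 * y2 * e1
    exact hD (pow_eq_zero_iff (two_ne_zero)|>.1 e5)
  have hμ0 : μ ≠ 0 := by
    have : 0 < ‖S p + 2‖ := norm_pos_iff.2 (add_two_ne (by rw [norm_S]; exact hp))
    positivity
  have hμ2 : μ ^ 2 ≠ 0 := pow_ne_zero 2 hμ0
  have i1 : (a ^ 2 - b ^ 2) + s * (2 * a * b) = 0 := by
    have : μ ^ 2 * (4 * ((a ^ 2 - b ^ 2) + s * (2 * a * b))) = 0 := by rw [← hB0, hB]; ring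
    have := (mul_eq_zero.1 this).resolve_left hμ2
    linarith
  have i2 : - (2 * a * b) + s * (a ^ 2 - b ^ 2) = 0 := by
    have : μ ^ 2 * (4 * (- (2 * a * b) + s * (a ^ 2 - b ^ 2))) = 0 := by
      have : A - C = 0 := by rw [hA0, hC0]; ring
      rw [← this, hA, hC]; ring
    have := (mul_eq_zero.1 this).resolve_left hμ2
    linarith
  have i3 : (1 + s ^ 2) * (a ^ 2 - b ^ 2) = 0 := by linear_combination i1 + s * i2
  have i4 : a ^ 2 - b ^ 2 = 0 := (mul_eq_zero.1 i3).resolve_left (by positivity)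
  have i5 : a * b = 0 := by rw [i4] at i2; linarith
  have i6 : a = 0 ∧ b = 0 := by
    rcases mul_eq_zero.1 i5 with h | h
    · rw [h] at i4
      refine ⟨h, ?_⟩
      have : b ^ 2 = 0 := by linarith
      exact pow_eq_zero_iff (two_ne_zero)|>.1 this
    · rw [h] at i4
      refine ⟨?_, h⟩
      have : a ^ 2 = 0 := by linarith
      exact pow_eq_zero_iff (two_ne_zero)|>.1 this
  have hp0 : p = 0 := Complex.ext i6.1 i6.2
  have hSp : S p = 0 := by rw [hp0, S, zero_mul]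
  have hμv : μ = 3 / 4 := by
    rw [hμ, hSp]; norm_num
  rw [hA, i6.1, i6.2, hμv] at hA0
  norm_num at hA0

/-! ### limits -/

/-- difference quotients at two points tending to `p` -/
lemma quot_tendsto {p d : ℂ} {L : ℂ →L[ℝ] ℂ} (hL : HasStrictFDerivAt F L p) {x y : ℕ → ℂ}
    {t : ℕ → ℝ} (hx : Tendsto x atTop (𝓝 p)) (hy : Tendsto y atTop (𝓝 p))
    (ht : ∀ n, t n ≠ 0) (hd : Tendsto (fun n => (t n)⁻¹ • (y n - x n)) atTop (𝓝 d)) :
    Tendsto (fun n => (t n)⁻¹ • (F (y n) - F (x n))) atTop (𝓝 (L d)) := by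
  have h1 := hL.isLittleO.comp_tendsto (hy.prodMk_nhds hx)
  have h2 : (fun n => y n - x n) =O[atTop] t := by
    have h3 : (fun n => (t n)⁻¹ • (y n - x n)) =O[atTop] (fun _ => (1 : ℝ)) := hd.isBigO_one ℝ
    have h4 := (Asymptotics.isBigO_refl t atTop).smul h3
    refine (h4.congr_left fun n => ?_).congr_right fun n => by simp
    rw [smul_smul, mul_inv_cancel₀ (ht n), one_smul]
  have h5 := (h1.trans_isBigO h2).tendsto_inv_smul_nhds_zero
  have h6 := (L.continuous.tendsto d).comp hd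
  have h7 := h5.add h6
  rw [zero_add] at h7
  refine h7.congr fun n => ?_
  simp only [Function.comp, map_smul, ← smul_add]
  congr 1
  abel

lemma sin_abs {x α : ℝ} (h : |x| = α) (hs : 0 < Real.sin α) : Real.sin α = |Real.sin x| := by
  rcases abs_choice x with h' | h'
  · rw [h'] at h; rw [h, abs_of_pos hs]
  · rw [h'] at h
    have : x = -α := by linarith
    rw [this, Real.sin_neg, abs_neg, abs_of_pos hs]

/-- the data of a triangle with the given angles -/
lemma shape {α β : ℝ} (hα : 0 < α) (hβ : 0 < β) (hαβ : α + β < Real.pi) {κ : ℂ}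
    (h1 : |κ.arg| = α) (h2 : |(1 - κ).arg| = β) :
    ‖κ‖ = Real.sin β / Real.sin (α + β) ∧
      |κ.im| = Real.sin β / Real.sin (α + β) * Real.sin α := by
  have hs : 0 < Real.sin (α + β) := Real.sin_pos_of_pos_of_lt_pi (by linarith) hαβ
  have hsα : 0 < Real.sin α := Real.sin_pos_of_pos_of_lt_pi hα (by linarith)
  have hsβ : 0 < Real.sin β := Real.sin_pos_of_pos_of_lt_pi hβ (by linarith)
  have a1 : κ.re = ‖κ‖ * Real.cos α := by
    rw [← h1, Real.cos_abs, Complex.norm_mul_cos_arg]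
  have a2 : |κ.im| = ‖κ‖ * Real.sin α := by
    rw [sin_abs h1 hsα, ← abs_of_nonneg (norm_nonneg κ), ← abs_mul,
      Complex.norm_mul_sin_arg]
  have b1 : (1 - κ).re = ‖1 - κ‖ * Real.cos β := by
    rw [← h2, Real.cos_abs, Complex.norm_mul_cos_arg]
  have b2 : |(1 - κ).im| = ‖1 - κ‖ * Real.sin β := by
    rw [sin_abs h2 hsβ, ← abs_of_nonneg (norm_nonneg (1 - κ)), ← abs_mul,
      Complex.norm_mul_sin_arg]
  have b3 : |(1 - κ).im| = |κ.im| := by
    rw [sub_im, one_im, zero_sub, abs_neg]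
  have b4 : (1 - κ).re = 1 - κ.re := by rw [sub_re, one_re]
  have c1 : ‖κ‖ * Real.sin (α + β) = Real.sin β := by
    rw [Real.sin_add]
    have d1 : ‖κ‖ * Real.sin α = ‖1 - κ‖ * Real.sin β := by rw [← a2, ← b2, b3]
    have d2 : ‖κ‖ * Real.cos α + ‖1 - κ‖ * Real.cos β = 1 := by
      rw [← a1, ← b1, b4]; ring
    linear_combination Real.cos β * d1 + Real.sin β * d2
  have c2 : ‖κ‖ = Real.sin β / Real.sin (α + β) := by
    rw [eq_div_iff hs.ne']; exact c1
  exact ⟨c2, by rw [a2, c2]⟩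

/-- There is a homeomorphism `T` of the closed unit disk onto itself such that, for all
`α, β, γ > 0` with `α + β + γ = π`, there is `ε > 0` such that no triangle with the angles
`α, β, γ` and with diameter less than `ε` is congruent to its image under `T`. -/
theorem result : ∃ T : Disk ≃ₜ Disk, ∀ α β γ : ℝ, 0 < α → 0 < β → 0 < γ →
    α + β + γ = Real.pi → ∃ ε : ℝ, 0 < ε ∧ ∀ p₁ p₂ p₃ : Disk, HasAngles α β γ p₁ p₂ p₃ →
      dist p₁ p₂ < ε → dist p₁ p₃ < ε → dist p₂ p₃ < ε → ¬ CongruentToImage T p₁ p₂ p₃ := by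
  refine ⟨T, fun α β γ hα hβ hγ hsum => ?_⟩
  by_contra hcon
  push Not at hcon
  have hαβ : α + β < Real.pi := by linarith
  have hsα : 0 < Real.sin α := Real.sin_pos_of_pos_of_lt_pi hα (by linarith)
  have hsβ : 0 < Real.sin β := Real.sin_pos_of_pos_of_lt_pi hβ (by linarith)
  have hs : 0 < Real.sin (α + β) := Real.sin_pos_of_pos_of_lt_pi (by linarith) hαβ
  set r₀ := Real.sin β / Real.sin (α + β) with hr₀
  have hr₀pos : 0 < r₀ := div_pos hsβ hs
  -- one triangle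
  have step : ∀ n : ℕ, ∃ p₁ p₂ p₃ : Disk, ∃ κ : ℂ, (p₂ : ℂ) - p₁ ≠ 0 ∧
      (p₃ : ℂ) - p₁ = κ * ((p₂ : ℂ) - p₁) ∧ ‖κ‖ = r₀ ∧ |κ.im| = r₀ * Real.sin α ∧
      dist p₁ p₂ < 1 / (n + 1 : ℝ) ∧ dist p₁ p₃ < 1 / (n + 1 : ℝ) ∧
      CongruentToImage T p₁ p₂ p₃ := by
    intro n
    obtain ⟨p₁, p₂, p₃, ⟨hc, ha, hb, -⟩, d1, d2, d3, hcong⟩ := hcon (1 / (n + 1 : ℝ))
      (by positivity)
    have hv : (p₂ : ℂ) - p₁ ≠ 0 := by
      intro h
      apply hc
      have : (p₂ : ℂ) = p₁ := sub_eq_zero.1 h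
      rw [this, Set.insert_eq_of_mem (Set.mem_insert _ _)]
      exact collinear_pair ℝ _ _
    have hw : (p₃ : ℂ) - p₁ ≠ 0 := by
      intro h
      apply hc
      have : (p₃ : ℂ) = p₁ := sub_eq_zero.1 h
      rw [this, Set.pair_comm, Set.insert_eq_of_mem (Set.mem_insert _ _)]
      exact collinear_pair ℝ _ _
    have hz : (p₃ : ℂ) - p₂ ≠ 0 := by
      intro h
      apply hc
      have : (p₃ : ℂ) = p₂ := sub_eq_zero.1 h
      rw [this, Set.pair_eq_singleton]
      exact collinear_pair ℝ _ _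
    refine ⟨p₁, p₂, p₃, ((p₃ : ℂ) - p₁) / ((p₂ : ℂ) - p₁), hv, by field_simp, ?_⟩
    have e1 : |(((p₃ : ℂ) - p₁) / ((p₂ : ℂ) - p₁)).arg| = α := by
      rw [← ha, EuclideanGeometry.angle, InnerProductGeometry.angle_comm]
      rw [vsub_eq_sub, vsub_eq_sub, Complex.angle_eq_abs_arg hw hv]
    have e2 : |(1 - ((p₃ : ℂ) - p₁) / ((p₂ : ℂ) - p₁)).arg| = β := by
      rw [← hb, EuclideanGeometry.angle, InnerProductGeometry.angle_comm]
      have hv' : (p₁ : ℂ) - p₂ ≠ 0 := by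
        intro h; apply hv; linear_combination -h
      rw [vsub_eq_sub, vsub_eq_sub, Complex.angle_eq_abs_arg hz hv']
      congr 2
      field_simp
      ring
    obtain ⟨e3, e4⟩ := shape hα hβ hαβ e1 e2
    exact ⟨e3, e4, d1, d2, hcong⟩
  choose p₁ p₂ p₃ κ hv hw hκ1 hκ2 hd1 hd2 hcong using step
  set v : ℕ → ℂ := fun n => (p₂ n : ℂ) - p₁ n with hvdef
  have hvn : ∀ n, ‖v n‖ ≠ 0 := fun n => norm_ne_zero_iff.2 (hv n)
  -- compactness
  have hK : IsCompact ((closedBall (0 : ℂ) 1) ×ˢ (sphere (0 : ℂ) 1 ×ˢ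
      (sphere (0 : ℂ) r₀ ∩ {z : ℂ | |z.im| = r₀ * Real.sin α}))) := by
    refine (isCompact_closedBall _ _).prod ((isCompact_sphere _ _).prod
      ((isCompact_sphere _ _).inter_right ?_))
    exact isClosed_eq (continuous_abs.comp Complex.continuous_im) continuous_const
  obtain ⟨⟨p, u, k⟩, hmem, φ, hφ, hlim⟩ := hK.tendsto_subseq
    (x := fun n => ((p₁ n : ℂ), (‖v n‖⁻¹ : ℝ) • v n, κ n)) (fun n => by
      refine ⟨(p₁ n).2, ?_, ?_, hκ2 n⟩
      · rw [mem_sphere_zero_iff_norm, norm_smul, norm_inv, norm_norm, inv_mul_cancel₀ (hvn n)]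
      · rw [mem_sphere_zero_iff_norm]; exact hκ1 n)
  obtain ⟨hpD, hu1, hk1, hk2⟩ := hmem
  have hp : ‖p‖ ≤ 1 := mem_closedBall_zero_iff.1 hpD
  have hu : ‖u‖ = 1 := mem_sphere_zero_iff_norm.1 hu1
  have lim1 : Tendsto (fun n => (p₁ (φ n) : ℂ)) atTop (𝓝 p) :=
    (continuous_fst.tendsto _).comp hlim
  have lim2 : Tendsto (fun n => (‖v (φ n)‖⁻¹ : ℝ) • v (φ n)) atTop (𝓝 u) :=
    ((continuous_fst.comp continuous_snd).tendsto _).comp hlim
  have lim3 : Tendsto (fun n => κ (φ n)) atTop (𝓝 k) :=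
    ((continuous_snd.comp continuous_snd).tendsto _).comp hlim
  have small : Tendsto (fun n : ℕ => 1 / ((φ n : ℝ) + 1)) atTop (𝓝 0) :=
    tendsto_one_div_add_atTop_nhds_zero_nat.comp hφ.tendsto_atTop
  have lim4 : Tendsto (fun n => (p₂ (φ n) : ℂ)) atTop (𝓝 p) := by
    have : Tendsto (fun n => (p₂ (φ n) : ℂ) - p₁ (φ n)) atTop (𝓝 0) := by
      rw [tendsto_zero_iff_norm_tendsto_zero]
      refine squeeze_zero (fun n => norm_nonneg _) (fun n => ?_) small
      have := (hd1 (φ n)).le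
      rw [dist_comm, Subtype.dist_eq, dist_eq_norm] at this
      exact this
    have := this.add lim1
    simpa using this
  have lim5 : Tendsto (fun n => (p₃ (φ n) : ℂ)) atTop (𝓝 p) := by
    have : Tendsto (fun n => (p₃ (φ n) : ℂ) - p₁ (φ n)) atTop (𝓝 0) := by
      rw [tendsto_zero_iff_norm_tendsto_zero]
      refine squeeze_zero (fun n => norm_nonneg _) (fun n => ?_) small
      have := (hd2 (φ n)).le
      rw [dist_comm, Subtype.dist_eq, dist_eq_norm] at this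
      exact this
    have := this.add lim1
    simpa using this
  obtain ⟨L, hL, hLn⟩ := deriv_F hp
  -- the three sides
  have side : ∀ (x y : ℕ → Disk) (d : ℂ), Tendsto (fun n => (x (φ n) : ℂ)) atTop (𝓝 p) →
      Tendsto (fun n => (y (φ n) : ℂ)) atTop (𝓝 p) →
      Tendsto (fun n => (‖v (φ n)‖⁻¹ : ℝ) • ((y (φ n) : ℂ) - x (φ n))) atTop (𝓝 d) →
      (∀ n, dist (T (x n)) (T (y n)) = dist (x n) (y n)) → ‖L d‖ = ‖d‖ := by
    intro x y d hx hy hd hdist
    have h1 := (quot_tendsto hL hx hy (fun n => hvn (φ n)) hd).norm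
    have h2 := hd.norm
    refine tendsto_nhds_unique h1 (h2.congr fun n => ?_)
    rw [norm_smul, norm_smul]
    congr 1
    have h3 := hdist (φ n)
    rw [Subtype.dist_eq, Subtype.dist_eq, dist_comm, dist_comm (x (φ n) : ℂ), dist_eq_norm,
      dist_eq_norm] at h3
    exact h3.symm
  have s1 : ‖L u‖ = ‖u‖ := side p₁ p₂ u lim1 lim4 lim2 fun n => (hcong n).1
  have s2 : ‖L (k * u)‖ = ‖k * u‖ := by
    refine side p₁ p₃ (k * u) lim1 lim5 ?_ fun n => (hcong n).2.1
    refine (lim3.mul lim2).congr fun n => ?_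
    rw [hw (φ n), mul_smul_comm]
  have s3 : ‖L ((k - 1) * u)‖ = ‖(k - 1) * u‖ := by
    refine side p₂ p₃ ((k - 1) * u) lim4 lim5 ?_ fun n => (hcong n).2.2
    refine ((lim3.sub_const 1).mul lim2).congr fun n => ?_
    have : (p₃ (φ n) : ℂ) - p₂ (φ n) = (κ (φ n) - 1) * v (φ n) := by
      have := hw (φ n)
      simp only [hvdef]
      linear_combination this
    rw [this, mul_smul_comm]
  rw [hLn] at s1 s2 s3
  have hk0 : k.im ≠ 0 := by
    intro h
    have : |k.im| = r₀ * Real.sin α := hk2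
    rw [h, abs_zero] at this
    have := mul_pos hr₀pos hsα
    linarith
  have hu0 : u ≠ 0 := by
    intro h; rw [h, norm_zero] at hu; exact zero_ne_one hu
  exact key hp hu0 hk0 s1 s2 s3

end Pool.Agent.Results.MP_623bad_gt.PrescribedAngles
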